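import Mathlib

/-!
# A finite ordered set with the fixed point property whose iterated clique graphs never collapse

The ordered set `P` is the face poset of the hemicube, a subdivision of the projective plane with
4 vertices, 6 edges and 3 quadrilateral faces: 13 elements in all.  It has the fixed point property
(a finite search, done by the kernel; topologically, `P` is a model of the projective plane, which
is rationally acyclic).  Its comparability graph has a connected double cover to which all
triangles lift (the comparability graph of the face poset of the cube), the clique graph operator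
carries such covers to such covers, and a graph with one vertex has none.
-/

set_option autoImplicit false

namespace Pool.Agent.Results.MP_c7efa6_co.ProjectivePlanePoset

/-- A simple graph together with its type of vertices. -/
structure Graph where
  /-- the vertices -/
  V : Type
  /-- the graph -/
  G : SimpleGraph V

/-- The clique graph: the vertices are the (inclusion-)maximal cliques, two distinct maximal
cliques are adjacent when they share at least one vertex. -/
def K (X : Graph) : Graph where
  V := {Q : Set X.V // Maximal X.G.IsClique Q}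
  G :=
    { Adj := fun Q R => Q ≠ R ∧ (Q.1 ∩ R.1).Nonempty
      symm := ⟨fun Q R h => ⟨h.1.symm, by rw [Set.inter_comm]; exact h.2⟩⟩
      loopless := ⟨fun Q h => h.1 rfl⟩ }

/-- The iterated clique graphs `K^0(X) = X`, `K^(n+1)(X) = K(K^n(X))`. -/
def iterK (X : Graph) : ℕ → Graph
  | 0 => X
  | n + 1 => K (iterK X n)

/-- The comparability graph: distinct elements are adjacent iff they are comparable. -/
def comparabilityGraph (P : Type) [PartialOrder P] : Graph where
  V := P
  G :=
    { Adj := fun a b => a ≠ b ∧ (a ≤ b ∨ b ≤ a)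
      symm := ⟨fun _ _ h => ⟨h.1.symm, h.2.symm⟩⟩
      loopless := ⟨fun _ h => h.1 rfl⟩ }

/-! ### Covers to which triangles lift -/

/-- `p : Y → X` is a covering of graphs to which triangles lift, `Y` is connected and finite, and
`p` is not injective. -/
structure IsCov (X Y : Graph) (p : Y.V → X.V) : Prop where
  hom : ∀ a b, Y.G.Adj a b → X.G.Adj (p a) (p b)
  lift : ∀ a x, X.G.Adj (p a) x → ∃ b, Y.G.Adj a b ∧ p b = x
  uniq : ∀ a b c, Y.G.Adj a b → Y.G.Adj a c → p b = p c → b = c
  tri : ∀ a b c, Y.G.Adj a b → Y.G.Adj a c → X.G.Adj (p b) (p c) → Y.G.Adj b c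
  ninj : ∃ a b, a ≠ b ∧ p a = p b
  conn : ∀ a b, Y.G.Reachable a b
  finY : Finite Y.V
  finX : Finite X.V

/-- Every clique of a finite graph lies in a maximal one. -/
theorem exists_max {X : Graph} [Finite X.V] {s : Set X.V} (hs : X.G.IsClique s) :
    ∃ Q : Set X.V, s ⊆ Q ∧ Maximal X.G.IsClique Q := by
  obtain ⟨Q, hQ, hmax⟩ := (Set.toFinite {Q : Set X.V | X.G.IsClique Q}).exists_le_maximal hs
  exact ⟨Q, hQ, hmax⟩

/-- An element adjacent to all other elements of a maximal clique lies in it. -/
theorem mem_of_max {X : Graph} {Q : Set X.V} (hQ : Maximal X.G.IsClique Q) {y : X.V}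
    (hy : ∀ q ∈ Q, q ≠ y → X.G.Adj q y) : y ∈ Q := by
  have hc : X.G.IsClique (insert y Q) := by
    rw [SimpleGraph.isClique_iff, Set.pairwise_insert]
    refine ⟨hQ.1, fun b hb hne => ⟨?_, ?_⟩⟩
    · exact (hy b hb (Ne.symm hne)).symm
    · exact hy b hb (Ne.symm hne)
  exact hQ.2 hc (Set.subset_insert y Q) (Set.mem_insert y Q)

theorem nonempty_of_max {X : Graph} [Nonempty X.V] {Q : Set X.V}
    (hQ : Maximal X.G.IsClique Q) : Q.Nonempty := by
  by_contra h
  rw [Set.not_nonempty_iff_eq_empty] at h
  obtain ⟨y⟩ := ‹Nonempty X.V›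
  have : y ∈ Q := mem_of_max hQ (by simp [h])
  simp [h] at this

section
variable {X Y : Graph} {p : Y.V → X.V}

/-- The image of a maximal clique is a maximal clique. -/
theorem image_max (h : IsCov X Y p) {Q : Set Y.V} (hQ : Maximal Y.G.IsClique Q) :
    Maximal X.G.IsClique (p '' Q) := by
  have : Nonempty Y.V := ⟨h.ninj.choose⟩
  obtain ⟨q0, hq0⟩ := nonempty_of_max hQ
  refine ⟨?_, ?_⟩
  · rintro _ ⟨a, ha, rfl⟩ _ ⟨b, hb, rfl⟩ hne
    exact h.hom a b (hQ.1 ha hb (fun e => hne (by rw [e])))
  · intro R hR hle x hx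
    by_cases hx0 : p q0 = x
    · exact ⟨q0, hq0, hx0⟩
    · have hadj : X.G.Adj (p q0) x := hR (hle ⟨q0, hq0, rfl⟩) hx hx0
      obtain ⟨y, hy, rfl⟩ := h.lift q0 x hadj
      refine ⟨y, mem_of_max hQ ?_, rfl⟩
      intro q hq hne
      by_cases hqq : q = q0
      · rw [hqq]; exact hy
      · have h1 : Y.G.Adj q0 q := hQ.1 hq0 hq (Ne.symm hqq)
        have hpne : p q ≠ p y := fun e => hne (h.uniq q0 q y h1 hy e)
        exact h.tri q0 q y h1 hy (hR (hle ⟨q, hq, rfl⟩) hx hpne)

/-- The lift of the maximal clique `R` at the vertex `q` over a vertex of `R`. -/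
def liftSet (p : Y.V → X.V) (q : Y.V) (R : Set X.V) : Set Y.V :=
  {y | y = q ∨ (Y.G.Adj q y ∧ p y ∈ R)}

theorem image_liftSet (h : IsCov X Y p) {q : Y.V} {R : Set X.V} (hR : X.G.IsClique R)
    (hq : p q ∈ R) : p '' (liftSet p q R) = R := by
  ext x
  constructor
  · rintro ⟨y, hy, rfl⟩
    rcases hy with rfl | hy
    · exact hq
    · exact hy.2
  · intro hx
    by_cases hx0 : p q = x
    · exact ⟨q, Or.inl rfl, hx0⟩
    · obtain ⟨y, hy, rfl⟩ := h.lift q x (hR hq hx hx0)
      exact ⟨y, Or.inr ⟨hy, hx⟩, rfl⟩

theorem max_liftSet (h : IsCov X Y p) {q : Y.V} {R : Set X.V} (hR : Maximal X.G.IsClique R)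
    (hq : p q ∈ R) : Maximal Y.G.IsClique (liftSet p q R) := by
  refine ⟨?_, ?_⟩
  · intro a ha b hb hne
    rcases ha with rfl | ha
    · rcases hb with rfl | hb
      · exact absurd rfl hne
      · exact hb.1
    · rcases hb with rfl | hb
      · exact ha.1.symm
      · refine h.tri q a b ha.1 hb.1 (hR.1 ha.2 hb.2 ?_)
        exact fun e => hne (h.uniq q a b ha.1 hb.1 e)
  · intro S hS hle y hy
    by_cases hyq : y = q
    · exact Or.inl hyq
    · have hqS : q ∈ S := hle (Or.inl rfl)
      have hadj : Y.G.Adj q y := hS hqS hy (Ne.symm hyq)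
      refine Or.inr ⟨hadj, mem_of_max hR ?_⟩
      intro r hr hne
      rw [← image_liftSet h hR.1 hq] at hr
      obtain ⟨z, hz, rfl⟩ := hr
      exact h.hom z y (hS (hle hz) hy (fun e => hne (by rw [e])))

/-- The only maximal clique through `q` over `R` is the lift. -/
theorem eq_liftSet (h : IsCov X Y p) {q : Y.V} {S : Set Y.V} (hS : Maximal Y.G.IsClique S)
    (hq : q ∈ S) : S = liftSet p q (p '' S) := by
  have hmax := max_liftSet h (image_max h hS) (q := q) ⟨q, hq, rfl⟩
  have hsub : S ⊆ liftSet p q (p '' S) := by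
    intro y hy
    by_cases hyq : y = q
    · exact Or.inl hyq
    · exact Or.inr ⟨hS.1 hq hy (Ne.symm hyq), y, hy, rfl⟩
  exact Set.Subset.antisymm hsub (hS.2 hmax.1 hsub)

/-- Two maximal cliques with a common vertex and the same image are equal. -/
theorem eq_of_image (h : IsCov X Y p) {S T : Set Y.V} (hS : Maximal Y.G.IsClique S)
    (hT : Maximal Y.G.IsClique T) {q : Y.V} (hqS : q ∈ S) (hqT : q ∈ T)
    (e : p '' S = p '' T) : S = T := by
  rw [eq_liftSet h hS hqS, eq_liftSet h hT hqT, e]

/-- The map induced on the vertices of the clique graphs. -/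
def pK (h : IsCov X Y p) : (K Y).V → (K X).V := fun Q => ⟨p '' Q.1, image_max h Q.2⟩

theorem cov_K (h : IsCov X Y p) : IsCov (K X) (K Y) (pK h) where
  hom := by
    rintro ⟨Q, hQ⟩ ⟨R, hR⟩ ⟨hne, q, hq, hr⟩
    refine ⟨fun e => hne ?_, p q, ⟨q, hq, rfl⟩, ⟨q, hr, rfl⟩⟩
    exact Subtype.ext (eq_of_image h hQ hR hq hr (congrArg Subtype.val e))
  lift := by
    rintro ⟨Q, hQ⟩ ⟨R, hR⟩ ⟨hne, x, ⟨q, hq, rfl⟩, hx⟩
    refine ⟨⟨liftSet p q R, max_liftSet h hR hx⟩, ⟨fun e => hne ?_, q, hq, Or.inl rfl⟩, ?_⟩
    · apply Subtype.ext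
      have e1 : Q = liftSet p q R := congrArg Subtype.val e
      change p '' Q = R
      rw [e1, image_liftSet h hR.1 hx]
    · exact Subtype.ext (image_liftSet h hR.1 hx)
  uniq := by
    rintro ⟨Q, hQ⟩ ⟨R, hR⟩ ⟨S, hS⟩ ⟨-, b, hbQ, hbR⟩ ⟨-, c, hcQ, hcS⟩ e
    have e' : p '' R = p '' S := congrArg Subtype.val e
    have hb : b ∈ S := by
      by_cases hbc : b = c
      · rw [hbc]; exact hcS
      · have hadj : Y.G.Adj c b := hQ.1 hcQ hbQ (Ne.symm hbc)
        have : p b ∈ p '' S := by rw [← e']; exact ⟨b, hbR, rfl⟩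
        obtain ⟨s, hs, hps⟩ := this
        have hsc : s ≠ c := by
          intro hsc
          have := h.hom c b hadj
          rw [← hps, hsc] at this
          exact (X.G.loopless.irrefl _ this)
        have hadj2 : Y.G.Adj c s := hS.1 hcS hs (Ne.symm hsc)
        rw [← h.uniq c s b hadj2 hadj hps]
        exact hs
    exact Subtype.ext (eq_of_image h hR hS hbR hb e')
  tri := by
    rintro ⟨A, hA⟩ ⟨B, hB⟩ ⟨C, hC⟩ ⟨-, b, hbA, hbB⟩ ⟨-, c, hcA, hcC⟩
      ⟨hne, x, ⟨b', hb', hxb⟩, ⟨c', hc', hxc⟩⟩
    refine ⟨fun e => hne ?_, ?_⟩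
    · have e1 : B = C := congrArg Subtype.val e
      subst e1; rfl
    · by_cases hbc : b = c
      · exact ⟨b, hbB, by rw [hbc]; exact hcC⟩
      · have hadj : Y.G.Adj b c := hA.1 hbA hcA hbc
        by_cases hb1 : b' = b
        · -- `p c' = p b`
          have hcc : c' ≠ c := by
            intro e
            have := h.hom b c hadj
            rw [← hb1, hxb, ← hxc, e] at this
            exact X.G.loopless.irrefl _ this
          have hadj2 : Y.G.Adj c c' := hC.1 hcC hc' (Ne.symm hcc)
          have : c' = b := h.uniq c c' b hadj2 hadj.symm (by rw [hxc, ← hxb, hb1])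
          exact ⟨b, hbB, by rw [← this]; exact hc'⟩
        · by_cases hc1 : c' = c
          · have hadj2 : Y.G.Adj b b' := hB.1 hbB hb' (Ne.symm hb1)
            have : b' = c := h.uniq b b' c hadj2 hadj (by rw [hxb, ← hxc, hc1])
            exact ⟨c, by rw [← this]; exact hb', hcC⟩
          · have hbb : Y.G.Adj b b' := hB.1 hbB hb' (Ne.symm hb1)
            have hcc : Y.G.Adj c c' := hC.1 hcC hc' (Ne.symm hc1)
            have h1 : X.G.Adj (p b) (p c') := by
              rw [hxc, ← hxb]; exact h.hom b b' hbb
            have h2 : Y.G.Adj b c' := h.tri c b c' hadj.symm hcc h1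
            have h3 : b' = c' := h.uniq b b' c' hbb h2 (by rw [hxb, hxc])
            exact ⟨b', hb', by rw [h3]; exact hc'⟩
  ninj := by
    have := h.finY
    obtain ⟨a, b, hab, hp⟩ := h.ninj
    obtain ⟨Q, hQ, hQm⟩ := exists_max (X := Y) (s := {a}) (by simp)
    have haQ : a ∈ Q := hQ rfl
    have hb : p b ∈ p '' Q := ⟨a, haQ, hp⟩
    have hR := max_liftSet h (image_max h hQm) hb
    refine ⟨⟨Q, hQm⟩, ⟨liftSet p b (p '' Q), hR⟩, ?_, ?_⟩
    · intro e
      have e1 : Q = liftSet p b (p '' Q) := congrArg Subtype.val e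
      have hbQ : b ∈ Q := by rw [e1]; exact Or.inl rfl
      have := h.hom a b (hQm.1 haQ hbQ hab)
      rw [hp] at this
      exact X.G.loopless.irrefl _ this
    · exact Subtype.ext (image_liftSet h (image_max h hQm).1 hb).symm
  conn := by
    have := h.finY
    have : Nonempty Y.V := ⟨h.ninj.choose⟩
    rintro ⟨Q, hQ⟩ ⟨R, hR⟩
    obtain ⟨q, hq⟩ := nonempty_of_max hQ
    obtain ⟨r, hr⟩ := nonempty_of_max hR
    have key : ∀ y, Y.G.Reachable q y → ∀ S : (K Y).V, y ∈ S.1 →
        (K Y).G.Reachable ⟨Q, hQ⟩ S := by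
      intro y hy
      rw [SimpleGraph.reachable_iff_reflTransGen] at hy
      induction hy with
      | refl =>
        intro S hS
        by_cases e : (⟨Q, hQ⟩ : (K Y).V) = S
        · rw [e]
        · exact SimpleGraph.Adj.reachable ⟨e, q, hq, hS⟩
      | @tail b c _ hadj ih =>
        intro S hS
        have hbc : Y.G.Adj b c := hadj
        obtain ⟨M, hM, hMm⟩ := exists_max (X := Y) (s := {b, c}) (by
          rw [SimpleGraph.isClique_iff, Set.pairwise_pair]
          exact fun _ => ⟨hbc, hbc.symm⟩)
        have h1 := ih ⟨M, hMm⟩ (hM (by simp))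
        refine h1.trans ?_
        by_cases e : (⟨M, hMm⟩ : (K Y).V) = S
        · rw [e]
        · exact SimpleGraph.Adj.reachable ⟨e, c, hM (by simp), hS⟩
    exact key r (h.conn q r) ⟨R, hR⟩ hr
  finY := by
    have := h.finY
    exact Subtype.finite
  finX := by
    have := h.finX
    exact Subtype.finite

end

theorem two_le (X Y : Graph) (p : Y.V → X.V) (h : IsCov X Y p) : 2 ≤ Nat.card X.V := by
  obtain ⟨a, b, hab, -⟩ := h.ninj
  have := h.finX
  have hr := h.conn a b
  rw [SimpleGraph.reachable_iff_reflTransGen] at hr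
  rcases Relation.ReflTransGen.cases_head hr with e | ⟨c, hac, -⟩
  · exact absurd e hab
  · have h1 := h.hom a c hac
    have : Nontrivial X.V := ⟨⟨p a, p c, h1.ne⟩⟩
    exact Finite.one_lt_card

theorem iter_cov {X Y : Graph} {p : Y.V → X.V} (h : IsCov X Y p) (n : ℕ) :
    ∃ (Z : Graph) (q : Z.V → (iterK X n).V), IsCov (iterK X n) Z q := by
  induction n with
  | zero => exact ⟨Y, p, h⟩
  | succ n ih =>
    obtain ⟨Z, q, hq⟩ := ih
    exact ⟨K Z, pK hq, cov_K hq⟩

/-! ### The ordered set with 13 elements -/

/-- Bit `j` of entry `i` says that `i ≤ j` in the face poset of the hemicube. -/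
def upT : List ℕ := [7393, 7506, 7828, 7976, 3088, 3104, 6208, 5248, 5376, 6656, 1024, 2048, 4096]

/-- Bit `j` of entry `i` says that `j ≤ i` in the face poset of the hemicube. -/
def dnT : List ℕ := [1, 2, 4, 8, 22, 41, 67, 133, 266, 524, 1471, 2687, 5071]

/-- The order relation, on natural numbers. -/
def leB (i j : ℕ) : Bool := (upT.getD i 0).testBit j

/-- The face poset of the hemicube. -/
structure HC where
  /-- the index of the element -/
  i : Fin 13
deriving DecidableEq

instance : PartialOrder HC where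
  le a b := leB a.i b.i = true
  le_refl a := by
    have h : ∀ i : Fin 13, leB i i = true := by decide
    exact h a.i
  le_trans a b c := by
    have h : ∀ i j k : Fin 13, leB i j = true → leB j k = true → leB i k = true := by decide
    exact h a.i b.i c.i
  le_antisymm a b := by
    have h : ∀ i j : Fin 13, leB i j = true → leB j i = true → i = j := by decide
    intro h1 h2
    have := h a.i b.i h1 h2
    cases a; cases b; simpa using this

instance : Fintype HC := Fintype.ofEquiv (Fin 13)
  ⟨fun i => ⟨i⟩, fun a => a.i, fun _ => rfl, fun _ => rfl⟩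

/-! ### The fixed point property, by a finite search -/

/-- The values `f y` allowed by `f x = v`, as a bit mask. -/
def allowed (x v y : ℕ) : ℕ :=
  if x = y then 1 <<< v
  else if leB x y then upT.getD v 0
  else if leB y x then dnT.getD v 0
  else 8191

/-- `search vars doms` is `true` only if no order-preserving map has all its values `f y` in the
sets given by the masks `doms`. -/
def search : List ℕ → List ℕ → Bool
  | [], _ => false
  | x :: rest, doms =>
    (List.range 13).all fun v =>
      !((doms.getD x 0).testBit v) ||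
        (let nd := doms.mapIdx fun y d => d &&& allowed x v y
         nd.any (fun d => d == 0) || search rest nd)

theorem allowed_ok {f : Fin 13 → Fin 13} (hf : ∀ a b : Fin 13, leB a b = true → leB (f a) (f b) = true)
    (x y : Fin 13) : (allowed x (f x) y).testBit (f y) = true := by
  have hself : ∀ i : Fin 13, (1 <<< (i : ℕ)).testBit i = true := by decide
  have hfull : ∀ i : Fin 13, (8191 : ℕ).testBit i = true := by decide
  have hdn : ∀ i j : Fin 13, leB i j = true → (dnT.getD j 0).testBit i = true := by decide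
  unfold allowed
  split_ifs with h1 h2 h3
  · have : x = y := Fin.ext h1
    rw [this]; exact hself _
  · exact hf x y h2
  · exact hdn _ _ (hf y x h3)
  · exact hfull _

theorem search_sound {f : Fin 13 → Fin 13} (hf : ∀ a b : Fin 13, leB a b = true → leB (f a) (f b) = true) :
    ∀ (vars doms : List ℕ), (∀ x ∈ vars, x < 13) → doms.length = 13 →
      (∀ y : Fin 13, (doms.getD y 0).testBit (f y) = true) → search vars doms = false := by
  intro vars
  induction vars with
  | nil => intro doms _ _ _; rfl
  | cons x rest ih =>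
    intro doms hv hlen hdom
    have hx : x < 13 := hv x (by simp)
    set nd := doms.mapIdx fun y d => d &&& allowed x (f ⟨x, hx⟩) y with hnd
    have hlen' : nd.length = 13 := by rw [hnd]; simp [hlen]
    have hdom' : ∀ y : Fin 13, (nd.getD y 0).testBit (f y) = true := by
      intro y
      have hy : (y : ℕ) < doms.length := by rw [hlen]; exact y.2
      have h1 := hdom y
      rw [List.getD_eq_getElem _ _ hy] at h1
      have hy' : (y : ℕ) < nd.length := by rw [hlen']; exact y.2
      rw [List.getD_eq_getElem _ _ hy', List.getElem_mapIdx, Nat.testBit_and, h1]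
      simpa using allowed_ok hf ⟨x, hx⟩ y
    have hany : nd.any (fun d => d == 0) = false := by
      rw [List.any_eq_false]
      intro d hd
      obtain ⟨k, hk, rfl⟩ := List.getElem_of_mem hd
      have hk13 : k < 13 := by rw [← hlen']; exact hk
      have h1 := hdom' ⟨k, hk13⟩
      simp only at h1
      rw [List.getD_eq_getElem _ _ hk] at h1
      intro h0
      have h0' : nd[k] = 0 := by simpa using h0
      rw [h0'] at h1
      simp at h1
    have hrec := ih nd (fun z hz => hv z (by simp [hz])) hlen' hdom'
    unfold search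
    rw [List.all_eq_false]
    refine ⟨(f ⟨x, hx⟩ : ℕ), by simp, ?_⟩
    have h1 := hdom ⟨x, hx⟩
    simp only at h1
    simp only [h1, Bool.not_true, Bool.false_or]
    rw [← hnd, hany, hrec]
    simp

/-- all values allowed except the fixed point -/
def initDoms : List ℕ := (List.range 13).map fun x => 8191 - 2 ^ x

theorem search_true : search [10, 11, 12, 0, 1, 2, 3, 4, 5, 6, 7, 8, 9] initDoms = true := by
  decide +kernel

theorem fpp (f : HC →o HC) : ∃ x, f x = x := by
  by_contra hcon
  push Not at hcon
  have hf : ∀ a b : Fin 13, leB a b = true → leB (f ⟨a⟩).i (f ⟨b⟩).i = true :=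
    fun a b h => f.monotone (show (⟨a⟩ : HC) ≤ ⟨b⟩ from h)
  have hinit : ∀ y z : Fin 13, z ≠ y → (initDoms.getD y 0).testBit z = true := by decide
  have := search_sound (f := fun a => (f ⟨a⟩).i) hf [10, 11, 12, 0, 1, 2, 3, 4, 5, 6, 7, 8, 9]
    initDoms (by decide) (by decide) (fun y => hinit y _ (fun e => hcon ⟨y⟩ (by
      cases h : f ⟨y⟩ with
      | mk i => rw [h] at e; simpa using e)))
  rw [search_true] at this
  exact absurd this (by decide)

/-! ### The double cover: the comparability graph of the face poset of the cube -/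

/-- Bit `j` of entry `i` says that `i ≤ j` in the face poset of the cube. -/
def upC : List ℕ := [7344897, 11543810, 22039044, 26250248, 40046608, 44376096, 55197760, 59539584,
  3145984, 5243392, 9438208, 17827840, 6295552, 10493952, 20987904, 25198592, 35717120, 37879808,
  42205184, 50855936, 1048576, 2097152, 4194304, 8388608, 16777216, 33554432]

/-- adjacency in the comparability graph of the face poset of the cube -/
def adjC (i j : ℕ) : Bool :=
  i != j && ((upC.getD i 0).testBit j || (upC.getD j 0).testBit i)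

/-- adjacency in the comparability graph of the face poset of the hemicube -/
def adjH (i j : ℕ) : Bool := i != j && (leB i j || leB j i)

/-- The quotient map by the antipodal map. -/
def prT : List ℕ :=
  [3, 2, 1, 0, 0, 1, 2, 3, 9, 8, 7, 6, 5, 4, 4, 5, 6, 7, 8, 9, 12, 11, 10, 10, 11, 12]

/-- The comparability graph of the face poset of the cube. -/
def Cu : Graph where
  V := Fin 26
  G :=
    { Adj := fun a b => adjC a b = true
      symm := ⟨by decide +kernel⟩
      loopless := ⟨by decide +kernel⟩ }

/-- The quotient map. -/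
def pr (a : Cu.V) : (comparabilityGraph HC).V := (⟨Fin.ofNat 13 (prT.getD (Fin.val a) 0)⟩ : HC)

theorem adj_iff (a b : HC) : (comparabilityGraph HC).G.Adj a b ↔ adjH a.i b.i = true := by
  obtain ⟨a⟩ := a
  obtain ⟨b⟩ := b
  change ((⟨a⟩ : HC) ≠ ⟨b⟩ ∧ (leB a b = true ∨ leB b a = true)) ↔ adjH a b = true
  unfold adjH
  simp [Fin.ext_iff]

/-- a neighbour closer to the vertex `0` -/
def parT : List ℕ := [0, 8, 9, 20, 12, 21, 22, 23, 0, 0, 20, 20, 0, 21, 22, 3, 21, 22, 5, 6, 0, 0,
  0, 1, 2, 4]

/-- the parent in a breadth first spanning tree -/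
def par (a : Fin 26) : Fin 26 := Fin.ofNat 26 (parT.getD a 0)

theorem cov : IsCov (comparabilityGraph HC) Cu pr where
  hom a b hab := by
    refine (adj_iff _ _).2 ?_
    have h : ∀ a b : Fin 26, adjC a b = true → adjH (prT.getD a 0 % 13) (prT.getD b 0 % 13) = true :=
      by decide +kernel
    exact h a b hab
  lift a x hx := by
    have hx' := (adj_iff _ _).1 hx
    have h : ∀ a : Fin 26, ∀ x : Fin 13, adjH (prT.getD a 0 % 13) x = true →
        ∃ b : Fin 26, adjC a b = true ∧ prT.getD b 0 % 13 = x := by decide +kernel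
    obtain ⟨b, hb, hbx⟩ := h a (HC.i x) hx'
    refine ⟨b, hb, ?_⟩
    change (⟨Fin.ofNat 13 (prT.getD (Fin.val b) 0)⟩ : HC) = x
    have : Fin.ofNat 13 (prT.getD (Fin.val b) 0) = HC.i x := Fin.ext hbx
    rw [this]
    rfl
  uniq a b c hab hac hbc := by
    have h : ∀ a b : Fin 26, adjC a b = true → ∀ c : Fin 26, adjC a c = true →
        prT.getD b 0 % 13 = prT.getD c 0 % 13 → b = c := by decide +kernel
    exact h a b hab c hac (congrArg (fun z : HC => (z.i : ℕ)) hbc)
  tri a b c hab hac hbc := by
    have hbc' := (adj_iff _ _).1 hbc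
    have h : ∀ a b : Fin 26, adjC a b = true → ∀ c : Fin 26, adjC a c = true →
        adjH (prT.getD b 0 % 13) (prT.getD c 0 % 13) = true → adjC b c = true := by decide +kernel
    exact h a b hab c hac hbc'
  ninj := by
    refine ⟨(3 : Fin 26), (4 : Fin 26), ?_, ?_⟩
    · exact (by decide : (3 : Fin 26) ≠ 4)
    · exact (by decide : (⟨Fin.ofNat 13 (prT.getD 3 0)⟩ : HC) = ⟨Fin.ofNat 13 (prT.getD 4 0)⟩)
  conn a b := by
    have h : ∀ a : Fin 26, par a = a ∨ adjC a (par a) = true := by decide +kernel
    have h4 : ∀ a : Fin 26, par (par (par (par a))) = 0 := by decide +kernel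
    have h1 : ∀ a : Fin 26, Cu.G.Reachable a (par a) := by
      intro a
      rcases h a with e | e
      · rw [e]
      · exact SimpleGraph.Adj.reachable e
    have h0 : ∀ a : Fin 26, Cu.G.Reachable a (0 : Fin 26) := by
      intro a
      have := (h1 a).trans ((h1 _).trans ((h1 _).trans (h1 _)))
      rw [h4] at this
      exact this
    exact (h0 a).trans (h0 b).symm
  finY := inferInstanceAs (Finite (Fin 26))
  finX := inferInstanceAs (Finite HC)

/-- **A finite ordered set with the fixed point property whose iterated clique graphs never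
collapse**: `P` has 13 elements, every order-preserving self-map has a fixed point, and every
iterated clique graph of the comparability graph of `P` has at least two vertices. -/
theorem result : ∃ (P : Type) (_ : PartialOrder P), Nat.card P = 13 ∧
    (∀ f : P →o P, ∃ x, f x = x) ∧
    ∀ n : ℕ, 2 ≤ Nat.card (iterK (comparabilityGraph P) n).V := by
  refine ⟨HC, inferInstance, ?_, fpp, ?_⟩
  · rw [Nat.card_eq_fintype_card]
    rfl
  · intro n
    obtain ⟨Z, q, hq⟩ := iter_cov cov n
    exact two_le _ _ _ hq

end Pool.Agent.Results.MP_c7efa6_co.ProjectivePlanePoset
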